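import Pool.Agent.Y254.HK.Stm
import Pool.Agent.W46.HD.Tools
import Pool.Agent.W505.HD.Geo2

/-!
# `G` from the cell of `l2(τ)`, from `Z` and from the three heights (helper971)

Project HK of helper254: `t_f8 : S_BOX → S_F8`.
-/

set_option autoImplicit false

open Finset
open scoped Classical

namespace Pool.Agent.Y971.HK
open Pool.Agent.W904.AK Pool.Agent.W46.HD Pool.Agent.W46.HM Pool.Agent.Y244.HM
  Pool.Agent.W597.HD Pool.Agent.Y254HK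

/-- `log (1 + L) ≤ ε L + C` -/
theorem log_small (ε : ℝ) (hε : 0 < ε) : ∃ C : ℝ, 0 ≤ C ∧ ∀ L : ℝ, 0 ≤ L →
    Real.log (1 + L) ≤ ε * L + C := by
  refine ⟨max 0 (-Real.log ε + ε), le_max_left _ _, fun L hL => ?_⟩
  have h1 : Real.log (ε * (1 + L)) ≤ ε * (1 + L) - 1 :=
    Real.log_le_sub_one_of_pos (by positivity)
  rw [Real.log_mul hε.ne' (by positivity)] at h1
  have h2 := le_max_right 0 (-Real.log ε + ε)
  nlinarith

/-- the factor of `z - τ` -/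
noncomputable def ra (n : ℕ) (x y : ℤ) : ℝ := max 1 ((n : ℝ) / max 1 |(x : ℝ) - (y : ℝ)|)

/-- the factor of `τ - s1` -/
noncomputable def rb (n i j : ℕ) : ℝ := (n : ℝ) / max 1 |(i : ℝ) - (j : ℝ)|

theorem one_le_ra (n : ℕ) (x y : ℤ) : 1 ≤ ra n x y := le_max_left _ _

theorem ra_le {n : ℕ} (hn : 1 ≤ n) (x y : ℤ) : ra n x y ≤ n := by
  have hn' : (1 : ℝ) ≤ n := by exact_mod_cast hn
  unfold ra
  refine max_le hn' (div_le_self (by linarith) (le_max_left _ _))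

theorem rb_le {n : ℕ} (i j : ℕ) : rb n i j ≤ n :=
  div_le_self (Nat.cast_nonneg n) (le_max_left _ _)

theorem one_le_rb {n i j : ℕ} (hi : i < n) (hj : j < n) : 1 ≤ rb n i j := by
  unfold rb
  have hn : (1 : ℝ) ≤ n := by exact_mod_cast (by omega : 1 ≤ n)
  have hi' : (i : ℝ) < n := by exact_mod_cast hi
  have hj' : (j : ℝ) < n := by exact_mod_cast hj
  have hi0 : (0 : ℝ) ≤ i := Nat.cast_nonneg _
  have hj0 : (0 : ℝ) ≤ j := Nat.cast_nonneg _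
  rw [le_div_iff₀ (lt_of_lt_of_le one_pos (le_max_left _ _)), one_mul]
  refine max_le hn ?_
  rw [abs_le]
  constructor <;> linarith

/-- the bound for the shift `M` -/
theorem M_bd {n s1 v τ : ℕ} (hv : v < n) (hτ : τ < n) (y : ℤ) :
    |(mm s1 v τ y : ℝ)| ≤ n * |(y : ℝ)| + 1 := by
  have hv' : (v : ℝ) < n := by exact_mod_cast hv
  have hτ' : (τ : ℝ) < n := by exact_mod_cast hτ
  have hv0 : (0 : ℝ) ≤ v := Nat.cast_nonneg _
  have hτ0 : (0 : ℝ) ≤ τ := Nat.cast_nonneg _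
  have h1 : |(y : ℝ) * ((τ : ℝ) - v) / ((τ : ℝ) - s1)| ≤ n * |(y : ℝ)| := by
    rw [abs_div, abs_mul]
    have h2 : |(τ : ℝ) - v| ≤ n := by rw [abs_le]; constructor <;> linarith
    by_cases h0 : (τ : ℝ) - s1 = 0
    · rw [h0, abs_zero, div_zero]
      exact mul_nonneg (Nat.cast_nonneg _) (abs_nonneg _)
    · have h3 : (1 : ℝ) ≤ |(τ : ℝ) - s1| := by
        have h4 : (1 : ℤ) ≤ |(τ : ℤ) - s1| := by
          apply Int.one_le_abs
          intro h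
          apply h0
          exact_mod_cast h
        exact_mod_cast h4
      rw [div_le_iff₀ (by linarith)]
      have h5 : |(y : ℝ)| * |(τ : ℝ) - v| ≤ |(y : ℝ)| * n :=
        mul_le_mul_of_nonneg_left h2 (abs_nonneg _)
      have h6 : (n : ℝ) * |(y : ℝ)| * 1 ≤ n * |(y : ℝ)| * |(τ : ℝ) - s1| :=
        mul_le_mul_of_nonneg_left h3 (mul_nonneg (Nat.cast_nonneg _) (abs_nonneg _))
      linarith
  have h2 : |((mm s1 v τ y : ℤ) : ℝ) - (y : ℝ) * ((τ : ℝ) - v) / ((τ : ℝ) - s1)| ≤ 1 / 2 := by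
    unfold mm
    rw [abs_sub_comm]
    exact abs_sub_round _
  have h3 : |((mm s1 v τ y : ℤ) : ℝ)| ≤
      |((mm s1 v τ y : ℤ) : ℝ) - (y : ℝ) * ((τ : ℝ) - v) / ((τ : ℝ) - s1)| +
        |(y : ℝ) * ((τ : ℝ) - v) / ((τ : ℝ) - s1)| := by
    have := abs_add_le (((mm s1 v τ y : ℤ) : ℝ) - (y : ℝ) * ((τ : ℝ) - v) / ((τ : ℝ) - s1))
      ((y : ℝ) * ((τ : ℝ) - v) / ((τ : ℝ) - s1))
    rwa [sub_add_cancel] at this
  linarith

/-- The generic case. `P = Z*`, `T = T*`, `G = G*` for the two samples. -/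
theorem gen_case {ζ r r' n : ℝ} {ρ ρ' G G' T T' Z Z' Y L : ℝ}
    (hn : 1 ≤ n) (hζ : 1 ≤ ζ)
    (hρρ : |ρ - ρ'| * ζ ≤ 1) (hρ : |ρ| ≤ r) (hρ' : |ρ'| ≤ r')
    (hT : |T - T'| ≤ 1) (hZ : |Z - Z'| ≤ 1) (hG : |G - (ρ * Z + (1 - ρ) * T)| ≤ |ρ| + 1 / 2)
    (hG' : |G' - (ρ' * Z' + (1 - ρ') * T')| ≤ |ρ'| + 1 / 2)
    (hTZ : |Z - T| ≤ 1 + L + |Y|) (hL : L ≤ n) (hr' : 1 ≤ r') :
    |G - G'| ≤ 2 + 2 * (n / ζ * (1 + |Y| / n)) + r + 3 * r' := by
  have e : G - G' = (G - (ρ * Z + (1 - ρ) * T)) - (G' - (ρ' * Z' + (1 - ρ') * T')) +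
      (T - T') + (ρ - ρ') * (Z - T) + ρ' * ((Z - Z') - (T - T')) := by ring
  have h1 : |(ρ - ρ') * (Z - T)| ≤ 2 * (n / ζ * (1 + |Y| / n)) := by
    rw [abs_mul]
    have h2 : |ρ - ρ'| ≤ 1 / ζ := by
      rw [le_div_iff₀ (by linarith)]; exact hρρ
    have h3 : |Z - T| ≤ 2 * (n + |Y|) := by
      have := abs_nonneg Y
      linarith
    calc |ρ - ρ'| * |Z - T| ≤ 1 / ζ * (2 * (n + |Y|)) :=
          mul_le_mul h2 h3 (abs_nonneg _) (by positivity)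
      _ = 2 * (n / ζ * (1 + |Y| / n)) := by
          have : n ≠ 0 := by linarith
          field_simp
  have h2 : |ρ' * ((Z - Z') - (T - T'))| ≤ 2 * r' := by
    rw [abs_mul]
    have h3 : |(Z - Z') - (T - T')| ≤ 2 := (abs_sub _ _).trans (by linarith)
    calc |ρ'| * |(Z - Z') - (T - T')| ≤ r' * 2 :=
          mul_le_mul hρ' h3 (abs_nonneg _) (by linarith)
      _ = 2 * r' := by ring
  rw [e]
  have k1 := abs_add_le ((G - (ρ * Z + (1 - ρ) * T)) - (G' - (ρ' * Z' + (1 - ρ') * T')) +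
      (T - T') + (ρ - ρ') * (Z - T)) (ρ' * ((Z - Z') - (T - T')))
  have k2 := abs_add_le ((G - (ρ * Z + (1 - ρ) * T)) - (G' - (ρ' * Z' + (1 - ρ') * T')) +
      (T - T')) ((ρ - ρ') * (Z - T))
  have k3 := abs_add_le ((G - (ρ * Z + (1 - ρ) * T)) - (G' - (ρ' * Z' + (1 - ρ') * T')))
      (T - T')
  have k4 := abs_sub (G - (ρ * Z + (1 - ρ) * T)) (G' - (ρ' * Z' + (1 - ρ') * T'))
  linarith

section Samp

variable {Ω : Type} {d n : ℕ} {A D : Ω → Fin d → ℝ}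

/-- a point of a line is near to the points at other heights -/
theorem samp_a (hf : IsFam n D) {v τ : ℕ} (hv : v < n) (hτ : τ < n) (M : ℤ) (ω2 ω3 : Ω)
    (i : Fin d) :
    |(A ω2 i + (v : ℝ) * D ω2 i + (M : ℝ) * D ω3 i) - (A ω2 i + (τ : ℝ) * D ω2 i)| ≤
      n + |(M : ℝ)| := by
  have hv' : (v : ℝ) < n := by exact_mod_cast hv
  have hτ' : (τ : ℝ) < n := by exact_mod_cast hτ
  have hv0 : (0 : ℝ) ≤ v := Nat.cast_nonneg _
  have hτ0 : (0 : ℝ) ≤ τ := Nat.cast_nonneg _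
  have e : (A ω2 i + (v : ℝ) * D ω2 i + (M : ℝ) * D ω3 i) - (A ω2 i + (τ : ℝ) * D ω2 i) =
      ((v : ℝ) - τ) * D ω2 i + (M : ℝ) * D ω3 i := by ring
  rw [e]
  have h2 : |(v : ℝ) - τ| ≤ n := by rw [abs_le]; constructor <;> linarith
  have h3 : |((v : ℝ) - τ) * D ω2 i| ≤ n := by
    rw [abs_mul, abs_of_nonneg (hf.lo ω2 i)]
    calc |(v : ℝ) - τ| * D ω2 i ≤ |(v : ℝ) - τ| * 1 :=
          mul_le_mul_of_nonneg_left (hf.hi ω2 i) (abs_nonneg _)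
      _ ≤ n := by linarith
  have h4 : |(M : ℝ) * D ω3 i| ≤ |(M : ℝ)| := by
    rw [abs_mul, abs_of_nonneg (hf.lo ω3 i)]
    calc |(M : ℝ)| * D ω3 i ≤ |(M : ℝ)| * 1 :=
          mul_le_mul_of_nonneg_left (hf.hi ω3 i) (abs_nonneg _)
      _ = |(M : ℝ)| := mul_one _
  exact (abs_add_le _ _).trans (add_le_add h3 h4)

/-- `G*` is an affine combination of `Z*` and of the point of `l2` at the height `τ` -/
theorem samp_b (hf : IsFam n D) {s1 v τ : ℕ} (hτs : (τ : ℝ) ≠ s1) (y : ℤ) (ω1 ω2 ω3 : Ω)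
    (i : Fin d) (hinc : |(A ω1 i + (s1 : ℝ) * D ω1 i) - (A ω2 i + (s1 : ℝ) * D ω2 i)| ≤ 1) :
    |(A ω2 i + (v : ℝ) * D ω2 i + (mm s1 v τ y : ℝ) * D ω3 i) -
      (((τ : ℝ) - v) / ((τ : ℝ) - s1) * (A ω1 i + (s1 : ℝ) * D ω1 i + (y : ℝ) * D ω3 i) +
      (1 - ((τ : ℝ) - v) / ((τ : ℝ) - s1)) * (A ω2 i + (τ : ℝ) * D ω2 i))| ≤
      |((τ : ℝ) - v) / ((τ : ℝ) - s1)| + 1 / 2 := by
  obtain ⟨ρ, hρ⟩ : ∃ ρ, ρ = ((τ : ℝ) - v) / ((τ : ℝ) - s1) := ⟨_, rfl⟩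
  rw [← hρ]
  have h0 : (τ : ℝ) - s1 ≠ 0 := sub_ne_zero.mpr hτs
  have hv : (v : ℝ) = τ - ρ * (τ - s1) := by rw [hρ]; field_simp; ring
  have hm : |((mm s1 v τ y : ℤ) : ℝ) - ρ * y| ≤ 1 / 2 := by
    have : (y : ℝ) * ((τ : ℝ) - v) / ((τ : ℝ) - s1) = ρ * y := by rw [hρ]; ring
    unfold mm
    rw [this, abs_sub_comm]
    exact abs_sub_round _
  have e : (A ω2 i + (v : ℝ) * D ω2 i + (mm s1 v τ y : ℝ) * D ω3 i) -
      (ρ * (A ω1 i + (s1 : ℝ) * D ω1 i + (y : ℝ) * D ω3 i) +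
      (1 - ρ) * (A ω2 i + (τ : ℝ) * D ω2 i)) =
      ρ * -((A ω1 i + (s1 : ℝ) * D ω1 i) - (A ω2 i + (s1 : ℝ) * D ω2 i)) +
        (((mm s1 v τ y : ℤ) : ℝ) - ρ * y) * D ω3 i := by
    rw [hv]; ring
  rw [e]
  refine (abs_add_le _ _).trans (add_le_add ?_ ?_)
  · rw [abs_mul, abs_neg]
    calc |ρ| * _ ≤ |ρ| * 1 := mul_le_mul_of_nonneg_left hinc (abs_nonneg _)
      _ = |ρ| := mul_one _
  · rw [abs_mul, abs_of_nonneg (hf.lo ω3 i)]
    calc _ * D ω3 i ≤ |((mm s1 v τ y : ℤ) : ℝ) - ρ * y| * 1 :=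
          mul_le_mul_of_nonneg_left (hf.hi ω3 i) (abs_nonneg _)
      _ ≤ 1 / 2 := by rw [mul_one]; exact hm

/-- distance of `Z*` and of the point of `l2` at the height `τ` -/
theorem samp_c (hf : IsFam n D) {s1 τ : ℕ} (y : ℤ) (ω1 ω2 ω3 : Ω) (i : Fin d)
    (hinc : |(A ω1 i + (s1 : ℝ) * D ω1 i) - (A ω2 i + (s1 : ℝ) * D ω2 i)| ≤ 1) :
    |(A ω1 i + (s1 : ℝ) * D ω1 i + (y : ℝ) * D ω3 i) - (A ω2 i + (τ : ℝ) * D ω2 i)| ≤
      1 + |(τ : ℝ) - s1| + |(y : ℝ)| := by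
  have e : (A ω1 i + (s1 : ℝ) * D ω1 i + (y : ℝ) * D ω3 i) - (A ω2 i + (τ : ℝ) * D ω2 i) =
      ((A ω1 i + (s1 : ℝ) * D ω1 i) - (A ω2 i + (s1 : ℝ) * D ω2 i)) +
      ((s1 : ℝ) - τ) * D ω2 i + (y : ℝ) * D ω3 i := by ring
  rw [e]
  have h3 : |((s1 : ℝ) - τ) * D ω2 i| ≤ |(τ : ℝ) - s1| := by
    rw [abs_mul, abs_of_nonneg (hf.lo ω2 i), abs_sub_comm]
    calc _ * D ω2 i ≤ |(τ : ℝ) - s1| * 1 :=
          mul_le_mul_of_nonneg_left (hf.hi ω2 i) (abs_nonneg _)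
      _ = _ := mul_one _
  have h4 : |(y : ℝ) * D ω3 i| ≤ |(y : ℝ)| := by
    rw [abs_mul, abs_of_nonneg (hf.lo ω3 i)]
    calc |(y : ℝ)| * D ω3 i ≤ |(y : ℝ)| * 1 :=
          mul_le_mul_of_nonneg_left (hf.hi ω3 i) (abs_nonneg _)
      _ = |(y : ℝ)| := mul_one _
  exact (abs_add_le _ _).trans (add_le_add ((abs_add_le _ _).trans (add_le_add hinc h3)) h4)

end Samp

/-- the height of `G` -/
theorem samp_d {s1 v τ : ℕ} (hτs : (τ : ℝ) ≠ s1) (y : ℤ) :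
    |((v : ℝ) + (mm s1 v τ y : ℝ)) - τ - ((τ : ℝ) - v) / ((τ : ℝ) - s1) * ((s1 : ℝ) + y - τ)| ≤
      1 / 2 := by
  obtain ⟨ρ, hρ⟩ : ∃ ρ, ρ = ((τ : ℝ) - v) / ((τ : ℝ) - s1) := ⟨_, rfl⟩
  rw [← hρ]
  have h0 : (τ : ℝ) - s1 ≠ 0 := sub_ne_zero.mpr hτs
  have hv : (v : ℝ) = τ - ρ * (τ - s1) := by rw [hρ]; field_simp; ring
  have hm : |((mm s1 v τ y : ℤ) : ℝ) - ρ * y| ≤ 1 / 2 := by
    have : (y : ℝ) * ((τ : ℝ) - v) / ((τ : ℝ) - s1) = ρ * y := by rw [hρ]; ring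
    unfold mm
    rw [this, abs_sub_comm]
    exact abs_sub_round _
  have e : ((v : ℝ) + (mm s1 v τ y : ℝ)) - τ - ρ * ((s1 : ℝ) + y - τ) =
      ((mm s1 v τ y : ℤ) : ℝ) - ρ * y := by
    rw [hv]; ring
  rw [e]; exact hm

/-- size of the coefficient -/
theorem samp_e {n s1 v τ : ℕ} (hv : v < n) (hτ : τ < n) (hτs : (τ : ℝ) ≠ s1) :
    |((τ : ℝ) - v) / ((τ : ℝ) - s1)| ≤ rb n τ s1 ∧ 1 ≤ |(τ : ℝ) - s1| := by
  have hv' : (v : ℝ) < n := by exact_mod_cast hv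
  have hτ' : (τ : ℝ) < n := by exact_mod_cast hτ
  have hv0 : (0 : ℝ) ≤ v := Nat.cast_nonneg _
  have hτ0 : (0 : ℝ) ≤ τ := Nat.cast_nonneg _
  have h3 : (1 : ℝ) ≤ |(τ : ℝ) - s1| := by
    have h4 : (1 : ℤ) ≤ |(τ : ℤ) - s1| := by
      apply Int.one_le_abs
      intro h
      apply hτs
      have : (τ : ℤ) = s1 := by linarith
      exact_mod_cast this
    exact_mod_cast h4
  refine ⟨?_, h3⟩
  unfold rb
  rw [max_eq_right h3, abs_div]
  apply div_le_div_of_nonneg_right _ (by linarith)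
  rw [abs_le]; constructor <;> linarith

/-- Two samples with the same `τ`, cell of `l2(τ)`, height `z` and cell of `Z`, height of `G`. -/
theorem two_samples {Ω : Type} {d n : ℕ} {A D : Ω → Fin d → ℝ} (hf : IsFam n D)
    {τ s1 v s1' v' : ℕ} (hτ : τ < n) (hs : s1 < n) (hv : v < n) (hs' : s1' < n) (hv' : v' < n)
    (y y' : ℤ) (ω1 ω2 ω3 ω1' ω2' ω3' : Ω) (i : Fin d)
    (hinc : |(A ω1 i + (s1 : ℝ) * D ω1 i) - (A ω2 i + (s1 : ℝ) * D ω2 i)| ≤ 1)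
    (hinc' : |(A ω1' i + (s1' : ℝ) * D ω1' i) - (A ω2' i + (s1' : ℝ) * D ω2' i)| ≤ 1)
    (hT : |(A ω2 i + (τ : ℝ) * D ω2 i) - (A ω2' i + (τ : ℝ) * D ω2' i)| ≤ 1)
    (hz : (s1 : ℤ) + y = (s1' : ℤ) + y')
    (hZ : |(A ω1 i + (s1 : ℝ) * D ω1 i + (y : ℝ) * D ω3 i) -
      (A ω1' i + (s1' : ℝ) * D ω1' i + (y' : ℝ) * D ω3' i)| ≤ 1)
    (hg : (v : ℤ) + mm s1 v τ y = (v' : ℤ) + mm s1' v' τ y') :
    |(A ω2 i + (v : ℝ) * D ω2 i + (mm s1 v τ y : ℝ) * D ω3 i) -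
      (A ω2' i + (v' : ℝ) * D ω2' i + (mm s1' v' τ y' : ℝ) * D ω3' i)| + 1 ≤
      8 * (ra n (s1 + y) τ * rb n τ s1 * (1 + |(y : ℝ)| / n)) ^ 2 +
      8 * (ra n (s1' + y') τ * rb n τ s1' * (1 + |(y' : ℝ)| / n)) ^ 2 := by
  have hn : (1 : ℝ) ≤ n := by exact_mod_cast hf.pos
  have hn0 : (0 : ℝ) < n := by linarith
  have hzr : (s1 : ℝ) + y = (s1' : ℝ) + y' := by exact_mod_cast hz
  have hgr : (v : ℝ) + (mm s1 v τ y : ℝ) = (v' : ℝ) + (mm s1' v' τ y' : ℝ) := by exact_mod_cast hg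
  have hsr : (s1 : ℝ) < n := by exact_mod_cast hs
  have hsr' : (s1' : ℝ) < n := by exact_mod_cast hs'
  have hs0 : (0 : ℝ) ≤ s1 := Nat.cast_nonneg _
  have hs0' : (0 : ℝ) ≤ s1' := Nat.cast_nonneg _
  have hτr : (τ : ℝ) < n := by exact_mod_cast hτ
  have hτ0 : (0 : ℝ) ≤ τ := Nat.cast_nonneg _
  have a1 := one_le_ra n (s1 + y) τ
  have a1' := one_le_ra n (s1' + y') τ
  have b1 := one_le_rb hτ hs
  have b1' := one_le_rb hτ hs'
  have c1 : 1 ≤ 1 + |(y : ℝ)| / n := by have : 0 ≤ |(y : ℝ)| / n := by positivity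
                                        linarith
  have c1' : 1 ≤ 1 + |(y' : ℝ)| / n := by have : 0 ≤ |(y' : ℝ)| / n := by positivity
                                          linarith
  have P1 : 1 ≤ ra n (s1 + y) τ * rb n τ s1 * (1 + |(y : ℝ)| / n) :=
    one_le_mul_of_one_le_of_one_le (one_le_mul_of_one_le_of_one_le a1 b1) c1
  have P1' : 1 ≤ ra n (s1' + y') τ * rb n τ s1' * (1 + |(y' : ℝ)| / n) :=
    one_le_mul_of_one_le_of_one_le (one_le_mul_of_one_le_of_one_le a1' b1') c1'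
  -- the degenerate cases
  have deg : ∀ (v v' : ℕ) (y y' M M' : ℤ) (ω1 ω2 ω3 ω2' ω3' : Ω) (Q Q' : ℝ), v < n → v' < n →
      |(M : ℝ)| ≤ n * |(y : ℝ)| + 1 → |(M' : ℝ)| ≤ n * |(y' : ℝ)| + 1 →
      |(y' : ℝ)| ≤ |(y : ℝ)| + n → 0 ≤ Q' →
      |(A ω2 i + (τ : ℝ) * D ω2 i) - (A ω2' i + (τ : ℝ) * D ω2' i)| ≤ 1 →
      n * (1 + |(y : ℝ)| / n) ≤ Q →
      |(A ω2 i + (v : ℝ) * D ω2 i + (M : ℝ) * D ω3 i) -
      (A ω2' i + (v' : ℝ) * D ω2' i + (M' : ℝ) * D ω3' i)| + 1 ≤ 8 * Q ^ 2 + 8 * Q' ^ 2 := by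
    intro v v' y y' M M' ω1 ω2 ω3 ω2' ω3' Q Q' hv hv' hM hM' hyy hQ' hT hQ
    have e1 := samp_a (A := A) hf hv hτ M ω2 ω3 i
    have e2 := samp_a (A := A) hf hv' hτ M' ω2' ω3' i
    have hy0 := abs_nonneg (y : ℝ)
    have e3 : |(A ω2 i + (v : ℝ) * D ω2 i + (M : ℝ) * D ω3 i) -
      (A ω2' i + (v' : ℝ) * D ω2' i + (M' : ℝ) * D ω3' i)| ≤ (n + |(M : ℝ)|) + 1 +
        (n + |(M' : ℝ)|) := by
      have e4 : (A ω2 i + (v : ℝ) * D ω2 i + (M : ℝ) * D ω3 i) -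
          (A ω2' i + (v' : ℝ) * D ω2' i + (M' : ℝ) * D ω3' i) =
          ((A ω2 i + (v : ℝ) * D ω2 i + (M : ℝ) * D ω3 i) - (A ω2 i + (τ : ℝ) * D ω2 i)) +
          ((A ω2 i + (τ : ℝ) * D ω2 i) - (A ω2' i + (τ : ℝ) * D ω2' i)) +
          -((A ω2' i + (v' : ℝ) * D ω2' i + (M' : ℝ) * D ω3' i) -
            (A ω2' i + (τ : ℝ) * D ω2' i)) := by ring
      rw [e4]
      refine (abs_add_le _ _).trans (add_le_add ((abs_add_le _ _).trans (add_le_add e1 hT)) ?_)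
      rw [abs_neg]; exact e2
    have e5 : (n : ℝ) * (1 + |(y : ℝ)| / n) = n + |(y : ℝ)| := by field_simp
    rw [e5] at hQ
    have e6 : ((n : ℝ) + |(y : ℝ)|) ^ 2 ≤ Q ^ 2 := pow_le_pow_left₀ (by positivity) hQ 2
    have e7 : (n : ℝ) * |(y' : ℝ)| ≤ n * (|(y : ℝ)| + n) :=
      mul_le_mul_of_nonneg_left hyy hn0.le
    have e8 : 0 ≤ Q' ^ 2 := sq_nonneg _
    nlinarith [mul_nonneg hn0.le hy0]
  have hM1 := M_bd (s1 := s1) hv hτ y
  have hM2 := M_bd (s1 := s1') hv' hτ y'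
  have hyy : |(y' : ℝ)| ≤ |(y : ℝ)| + n := by
    have : (y' : ℝ) = y + ((s1 : ℝ) - s1') := by linarith
    rw [this]
    refine (abs_add_le _ _).trans (add_le_add le_rfl ?_)
    rw [abs_le]; constructor <;> linarith
  have hyy' : |(y : ℝ)| ≤ |(y' : ℝ)| + n := by
    have : (y : ℝ) = y' + ((s1' : ℝ) - s1) := by linarith
    rw [this]
    refine (abs_add_le _ _).trans (add_le_add le_rfl ?_)
    rw [abs_le]; constructor <;> linarith
  by_cases hz0 : (s1 : ℝ) + y = τ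
  · -- `z = τ`
    have hra : ra n (s1 + y) τ = n := by
      unfold ra
      have : (((s1 : ℤ) + y : ℤ) : ℝ) - ((τ : ℤ) : ℝ) = 0 := by push_cast; linarith
      rw [this, abs_zero, max_eq_left zero_le_one, div_one, max_eq_right hn]
    refine deg v v' y y' _ _ ω1 ω2 ω3 ω2' ω3' _ _ hv hv' hM1 hM2 hyy (by linarith) hT ?_
    rw [hra]
    refine mul_le_mul_of_nonneg_right ?_ (by linarith)
    exact le_mul_of_one_le_right hn0.le b1
  by_cases h1 : (τ : ℝ) = s1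
  · have hrb : rb n τ s1 = n := by
      unfold rb
      rw [h1, sub_self, abs_zero, max_eq_left zero_le_one, div_one]
    refine deg v v' y y' _ _ ω1 ω2 ω3 ω2' ω3' _ _ hv hv' hM1 hM2 hyy (by linarith) hT ?_
    rw [hrb]
    refine mul_le_mul_of_nonneg_right ?_ (by linarith)
    exact le_mul_of_one_le_left hn0.le a1
  by_cases h2 : (τ : ℝ) = s1'
  · have hrb : rb n τ s1' = n := by
      unfold rb
      rw [h2, sub_self, abs_zero, max_eq_left zero_le_one, div_one]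
    have hT' : |(A ω2' i + (τ : ℝ) * D ω2' i) - (A ω2 i + (τ : ℝ) * D ω2 i)| ≤ 1 := by
      rw [abs_sub_comm]; exact hT
    have := deg v' v y' y _ _ ω1' ω2' ω3' ω2 ω3
      (ra n (s1' + y') τ * rb n τ s1' * (1 + |(y' : ℝ)| / n))
      (ra n (s1 + y) τ * rb n τ s1 * (1 + |(y : ℝ)| / n)) hv' hv hM2 hM1 hyy' (by linarith) hT' (by
        rw [hrb]
        refine mul_le_mul_of_nonneg_right ?_ (by linarith)
        exact le_mul_of_one_le_left hn0.le a1')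
    rw [abs_sub_comm]
    linarith
  -- the generic case
  have g1 := samp_b (A := A) hf h1 (v := v) y ω1 ω2 ω3 i hinc
  have g2 := samp_b (A := A) hf h2 (v := v') y' ω1' ω2' ω3' i hinc'
  have g3 := samp_c (A := A) hf (τ := τ) y ω1 ω2 ω3 i hinc
  have g4 := samp_d (v := v) h1 y
  have g5 := samp_d (v := v') h2 y'
  obtain ⟨g6, g7⟩ := samp_e (n := n) hv hτ h1
  obtain ⟨g8, g9⟩ := samp_e (n := n) hv' hτ h2
  have hζ1 : (1 : ℝ) ≤ |(s1 : ℝ) + y - τ| := by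
    have h4 : (1 : ℤ) ≤ |(s1 : ℤ) + y - τ| := by
      apply Int.one_le_abs
      intro h
      apply hz0
      have : (s1 : ℤ) + y = τ := by linarith
      exact_mod_cast this
    exact_mod_cast h4
  have hρρ : |((τ : ℝ) - v) / ((τ : ℝ) - s1) - ((τ : ℝ) - v') / ((τ : ℝ) - s1')| *
      |(s1 : ℝ) + y - τ| ≤ 1 := by
    rw [← abs_mul]
    rw [← hgr, ← hzr] at g5
    have e : (((τ : ℝ) - v) / ((τ : ℝ) - s1) - ((τ : ℝ) - v') / ((τ : ℝ) - s1')) *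
        ((s1 : ℝ) + y - τ) =
        (((v : ℝ) + (mm s1 v τ y : ℝ)) - τ -
          ((τ : ℝ) - v') / ((τ : ℝ) - s1') * ((s1 : ℝ) + y - τ)) -
        (((v : ℝ) + (mm s1 v τ y : ℝ)) - τ -
          ((τ : ℝ) - v) / ((τ : ℝ) - s1) * ((s1 : ℝ) + y - τ)) := by ring
    rw [e]
    exact (abs_sub _ _).trans (by linarith)
  have hL : |(τ : ℝ) - s1| ≤ n := by rw [abs_le]; constructor <;> linarith
  have key := gen_case hn hζ1 hρρ g6 g8 hT hZ g1 g2 g3 hL b1'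
  have hra : ra n (s1 + y) τ = max 1 ((n : ℝ) / |(s1 : ℝ) + y - τ|) := by
    unfold ra
    have : (((s1 : ℤ) + y : ℤ) : ℝ) - ((τ : ℤ) : ℝ) = (s1 : ℝ) + y - τ := by push_cast; ring
    rw [this, max_eq_right hζ1]
  have k1 : (n : ℝ) / |(s1 : ℝ) + y - τ| * (1 + |(y : ℝ)| / n) ≤
      ra n (s1 + y) τ * rb n τ s1 * (1 + |(y : ℝ)| / n) := by
    refine mul_le_mul_of_nonneg_right ?_ (by linarith)
    have : (n : ℝ) / |(s1 : ℝ) + y - τ| ≤ ra n (s1 + y) τ := by rw [hra]; exact le_max_right _ _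
    exact this.trans (le_mul_of_one_le_right (by linarith) b1)
  have k2 : rb n τ s1 ≤ ra n (s1 + y) τ * rb n τ s1 * (1 + |(y : ℝ)| / n) := by
    refine (le_mul_of_one_le_left (by linarith) a1).trans ?_
    exact le_mul_of_one_le_right (by positivity) c1
  have k3 : rb n τ s1' ≤ ra n (s1' + y') τ * rb n τ s1' * (1 + |(y' : ℝ)| / n) := by
    refine (le_mul_of_one_le_left (by linarith) a1').trans ?_
    exact le_mul_of_one_le_right (by positivity) c1'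
  generalize ra n (s1 + y) τ * rb n τ s1 * (1 + |(y : ℝ)| / n) = P at *
  generalize ra n (s1' + y') τ * rb n τ s1' * (1 + |(y' : ℝ)| / n) = P' at *
  nlinarith [sq_nonneg (P - 1), sq_nonneg (P' - 1)]

/-- **F8.** -/
theorem t_f8 (hBOX : S_BOX) : S_F8 := by
  intro d ε hε
  obtain ⟨CB, hCB, hB⟩ := hBOX d (20 : ℝ) (by norm_num)
  obtain ⟨C1, hC1, hL1⟩ := log_small (ε / (CB + 1)) (by positivity)
  refine ⟨d * 30 + CB * (1 + C1), by positivity, ?_⟩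
  intro n Ω _ A D hf p S hp Θ iΘ q l1 l2 l3 s0 s1 t t' τ v hc
  have hq := hc.law
  have hn : (1 : ℝ) ≤ n := by exact_mod_cast hf.pos
  have hn0 : (0 : ℝ) < n := by linarith
  have hlogn : 0 ≤ Real.log n := Real.log_nonneg hn
  have hlog8 : Real.log 8 ≤ 3 := by
    have h1 : Real.log 8 = 3 * Real.log 2 := by
      rw [show (8 : ℝ) = 2 ^ 3 by norm_num, Real.log_pow]; norm_num
    have := Real.log_two_lt_d9
    rw [h1]; linarith
  have h9 := fun z => Pool.Agent.W505.HD.G9 n (s0 z) (s1 z) (t z) (t' z) (v z) (τ z) (s0 z).2 (s1 z).2 (t z).2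
    (t' z).2 (v z).2 (τ z).2
  obtain ⟨Y, hY⟩ : ∃ Y : Θ → ℤ, Y = fun z => yy (s0 z) (s1 z) (t z) (t' z) := ⟨_, rfl⟩
  have hYY : ∀ z, YY s0 s1 t t' z = Y z := fun z => by rw [hY]; rfl
  -- the function `R`
  obtain ⟨R, hR⟩ : ∃ R : Θ → ℝ, R = fun z => 8 * (ra n ((s1 z : ℕ) + Y z) ((τ z : ℕ) : ℤ) *
      rb n (τ z) (s1 z) * (1 + |(Y z : ℝ)| / n)) ^ 2 := ⟨_, rfl⟩
  have hlogR : ∀ z, 1 ≤ R z ∧ Real.log (R z) = Real.log 8 +
      2 * (pz n ((τ z : ℕ) : ℤ) ((s1 z : ℕ) + Y z) + psi n (τ z) (s1 z) +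
        Real.log (1 + |(Y z : ℝ)| / n)) := by
    intro z
    have a1 := one_le_ra n ((s1 z : ℕ) + Y z) ((τ z : ℕ) : ℤ)
    have b1 := one_le_rb (n := n) (τ z).2 (s1 z).2
    have c1 : 1 ≤ 1 + |(Y z : ℝ)| / n := by
      have : 0 ≤ |(Y z : ℝ)| / n := by positivity
      linarith
    have P1 := one_le_mul_of_one_le_of_one_le (one_le_mul_of_one_le_of_one_le a1 b1) c1
    constructor
    · rw [hR]
      dsimp only
      nlinarith [one_le_pow₀ P1 (n := 2)]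
    · rw [hR]
      dsimp only
      rw [Real.log_mul (by norm_num) (by positivity), Real.log_pow,
        Real.log_mul (by positivity) (by positivity), Real.log_mul (by positivity) (by positivity)]
      have e1 : Real.log (ra n ((s1 z : ℕ) + Y z) ((τ z : ℕ) : ℤ)) =
          pz n ((τ z : ℕ) : ℤ) ((s1 z : ℕ) + Y z) := by
        unfold ra pz
        rw [abs_sub_comm]
      have e2 : Real.log (rb n (τ z) (s1 z)) = psi n (τ z) (s1 z) := rfl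
      rw [e1, e2]
      norm_num
  have hS0 : 0 ≤ S := by
    have h1 : 0 ≤ ∑ z, q z * psi n (τ z) (s1 z) :=
      Finset.sum_nonneg fun z _ => mul_nonneg (hq.nonneg z) (psi_nonneg (τ z).2 (s1 z).2)
    exact h1.trans (hc.c5.trans hc.sep_le)
  -- expectation of `log R`
  have hE : ∑ z, q z * Real.log (R z) ≤ 9 + 6 * S := by
    have h1 : ∑ z, q z * Real.log (R z) ≤ ∑ z, q z * (9 +
        2 * (pz n ((τ z : ℕ) : ℤ) ((s1 z : ℕ) + Y z) + psi n (τ z) (s1 z) +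
        psi n (t z) (s0 z))) := by
      refine Finset.sum_le_sum fun z _ => mul_le_mul_of_nonneg_left ?_ (hq.nonneg z)
      rw [(hlogR z).2]
      have h4 := (h9 z).2.2.1
      have h5 : Real.log (1 + |(Y z : ℝ)| / n) ≤ 3 + psi n (t z) (s0 z) := by rw [hY]; exact h4
      linarith
    refine h1.trans ?_
    have e : ∀ z, q z * (9 + 2 * (pz n ((τ z : ℕ) : ℤ) ((s1 z : ℕ) + Y z) + psi n (τ z) (s1 z) +
        psi n (t z) (s0 z))) = 9 * q z + 2 * (q z * pz n ((τ z : ℕ) : ℤ) ((s1 z : ℕ) + Y z) +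
        q z * psi n (τ z) (s1 z) + q z * psi n (t z) (s0 z)) := fun z => by ring
    rw [Finset.sum_congr rfl fun z _ => e z, Finset.sum_add_distrib, ← Finset.mul_sum,
      ← Finset.mul_sum, Finset.sum_add_distrib, Finset.sum_add_distrib, hq.total]
    have h2 := hc.τx (fun a b c e => ((b : ℕ) : ℤ) + yy a b c e)
    have h3 : ∑ z, q z * pz n ((τ z : ℕ) : ℤ) ((s1 z : ℕ) + Y z) ≤ S := by
      rw [hY]; exact h2
    have h4 := hc.c5.trans hc.sep_le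
    have h5 := hc.c2.trans hc.sep_le
    linarith
  obtain ⟨f, hfd⟩ : ∃ f : Θ → (Fin n × (Fin d → ℤ) × (ℤ × (Fin d → ℤ)) × ℤ),
      f = fun z => (τ z, cell A D (τ z) (l2 z), XX A D l1 l3 s0 s1 t t' z,
      (WW A D l2 l3 s0 s1 t t' τ v z).1) := ⟨_, rfl⟩
  have hbox := hB Θ _ q f (fun z => (WW A D l2 l3 s0 s1 t t' τ v z).2) R n hf.pos hq (by
    intro z _
    refine ⟨(hlogR z).1, ?_⟩
    rw [(hlogR z).2]
    have e1 : pz n ((τ z : ℕ) : ℤ) ((s1 z : ℕ) + Y z) ≤ Real.log n := by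
      unfold pz
      refine Real.log_le_log (by positivity) ?_
      exact max_le hn (div_le_self hn0.le (le_max_left _ _))
    have e2 : psi n (τ z) (s1 z) ≤ Real.log n := by
      unfold psi
      refine Real.log_le_log (by positivity) (div_le_self hn0.le (le_max_left _ _))
    have e3 : Real.log (1 + |(Y z : ℝ)| / n) ≤ 3 + Real.log n := by
      have h4 := (h9 z).2.2.1
      have h5 : Real.log (1 + |(Y z : ℝ)| / n) ≤ 3 + psi n (t z) (s0 z) := by rw [hY]; exact h4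
      have e2 : psi n (t z) (s0 z) ≤ Real.log n := by
        unfold psi
        refine Real.log_le_log (by positivity) (div_le_self hn0.le (le_max_left _ _))
      linarith
    linarith) (by
    intro x y hx hy hfxy i
    rw [hfd] at hfxy
    simp only [Prod.mk.injEq] at hfxy
    obtain ⟨k1, k2, k3, k4⟩ := hfxy
    have k3a : (XX A D l1 l3 s0 s1 t t' x).1 = (XX A D l1 l3 s0 s1 t t' y).1 := by rw [k3]
    have k3b : (XX A D l1 l3 s0 s1 t t' x).2 = (XX A D l1 l3 s0 s1 t t' y).2 := by rw [k3]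
    simp only [XX, WW, MM, hYY] at k3a k3b k4 ⊢
    have i1x : |(A (l1 x) i + ((s1 x : ℕ) : ℝ) * D (l1 x) i) -
        (A (l2 x) i + ((s1 x : ℕ) : ℝ) * D (l2 x) i)| ≤ 1 :=
      same_floor (congrFun (hc.i1 x hx) i)
    have i1y : |(A (l1 y) i + ((s1 y : ℕ) : ℝ) * D (l1 y) i) -
        (A (l2 y) i + ((s1 y : ℕ) : ℝ) * D (l2 y) i)| ≤ 1 :=
      same_floor (congrFun (hc.i1 y hy) i)
    have kT : |(A (l2 x) i + ((τ x : ℕ) : ℝ) * D (l2 x) i) -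
        (A (l2 y) i + ((τ x : ℕ) : ℝ) * D (l2 y) i)| ≤ 1 := by
      have := congrFun k2 i
      rw [← k1] at this
      exact same_floor this
    have kZ : |(A (l1 x) i + ((s1 x : ℕ) : ℝ) * D (l1 x) i + (Y x : ℝ) * D (l3 x) i) -
        (A (l1 y) i + ((s1 y : ℕ) : ℝ) * D (l1 y) i + (Y y : ℝ) * D (l3 y) i)| ≤ 1 :=
      same_floor (congrFun k3b i)
    rw [← k1] at k4
    have key := two_samples hf (τ x).2 (s1 x).2 (v x).2 (s1 y).2 (v y).2 (Y x) (Y y)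
      (l1 x) (l2 x) (l3 x) (l1 y) (l2 y) (l3 y) i i1x i1y kT k3a kZ k4
    rw [hR]
    dsimp only
    rw [← k1]
    refine le_trans ?_ key
    have f1 := Int.floor_le (A (l2 x) i + ((v x : ℕ) : ℝ) * D (l2 x) i +
      (mm (s1 x) (v x) (τ x) (Y x) : ℝ) * D (l3 x) i)
    have f2 := Int.lt_floor_add_one (A (l2 x) i + ((v x : ℕ) : ℝ) * D (l2 x) i +
      (mm (s1 x) (v x) (τ x) (Y x) : ℝ) * D (l3 x) i)
    have f3 := Int.floor_le (A (l2 y) i + ((v y : ℕ) : ℝ) * D (l2 y) i +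
      (mm (s1 y) (v y) (τ x) (Y y) : ℝ) * D (l3 y) i)
    have f4 := Int.lt_floor_add_one (A (l2 y) i + ((v y : ℕ) : ℝ) * D (l2 y) i +
      (mm (s1 y) (v y) (τ x) (Y y) : ℝ) * D (l3 y) i)
    simp only [cz]
    generalize A (l2 x) i + ((v x : ℕ) : ℝ) * D (l2 x) i +
      (mm (s1 x) (v x) (τ x) (Y x) : ℝ) * D (l3 x) i = g1 at *
    generalize A (l2 y) i + ((v y : ℕ) : ℝ) * D (l2 y) i +
      (mm (s1 y) (v y) (τ x) (Y y) : ℝ) * D (l3 y) i = g2 at *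
    have f5 := le_abs_self (g1 - g2)
    have f6 := neg_abs_le (g1 - g2)
    rw [abs_le]
    constructor <;> linarith)
  unfold F8
  have hmono : H q (fun z => ((τ z, cell A D (τ z) (l2 z), XX A D l1 l3 s0 s1 t t' z,
      (WW A D l2 l3 s0 s1 t t' τ v z).1), WW A D l2 l3 s0 s1 t t' τ v z)) ≤
      H q (fun z => (f z, (WW A D l2 l3 s0 s1 t t' τ v z).2)) := by
    refine H_mono hq ?_
    intro x y _ _ h
    rw [hfd] at h
    simp only [Prod.mk.injEq] at h ⊢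
    obtain ⟨⟨h1, h2, h3, h4⟩, h5⟩ := h
    exact ⟨⟨h1, h2, h3, h4⟩, Prod.ext h4 h5⟩
  refine hmono.trans (hbox.trans ?_)
  rw [← hfd]
  have m1 := hL1 (Real.log n) hlogn
  have m2 : CB * (1 + Real.log (1 + Real.log n)) ≤
      CB * (1 + (ε / (CB + 1) * Real.log n + C1)) :=
    mul_le_mul_of_nonneg_left (by linarith) hCB
  have m3 : CB * (ε / (CB + 1) * Real.log n) ≤ ε * Real.log n := by
    have : CB * (ε / (CB + 1) * Real.log n) = (CB / (CB + 1)) * (ε * Real.log n) := by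
      field_simp
    rw [this]
    have h1 : CB / (CB + 1) ≤ 1 := by rw [div_le_one (by linarith)]; linarith
    exact mul_le_of_le_one_left (by positivity) h1
  have m4 : (d : ℝ) * ∑ z, q z * Real.log (R z) ≤ d * (9 + 6 * S) :=
    mul_le_mul_of_nonneg_left hE (Nat.cast_nonneg d)
  have m5 : (0 : ℝ) ≤ d := Nat.cast_nonneg d
  have m6 : 0 ≤ (d : ℝ) * S := mul_nonneg m5 hS0
  have m7 : 0 ≤ CB * (1 + C1) * S := mul_nonneg (by positivity) hS0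
  nlinarith

end Pool.Agent.Y971.HK
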